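import Mathlib

set_option autoImplicit false

open Finset ComplexConjugate

namespace Pool.Agent.Helper78.Makeev

/-- Gram identity of the five vectors in complex form. -/
def Tight (a a' b b' : Fin 5 → ℂ) : Prop :=
  ∀ i j, (if i = j then (1:ℂ) else 0)
    = 1/5 + a i * a' j + a' i * a j + b i * b' j + b' i * b j

lemma parseval {a a' b b' : Fin 5 → ℂ} (h : Tight a a' b b') (X Y : Fin 5 → ℂ) :
    ∑ i, X i * Y i = (∑ i, X i) * (∑ i, Y i) / 5
      + (∑ i, X i * a i) * (∑ i, Y i * a' i) + (∑ i, X i * a' i) * (∑ i, Y i * a i)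
      + (∑ i, X i * b i) * (∑ i, Y i * b' i) + (∑ i, X i * b' i) * (∑ i, Y i * b i) := by
  have h1 : ∑ i, X i * Y i = ∑ i, ∑ j, (if i = j then (1:ℂ) else 0) * (X i * Y j) := by
    simp
  have h2 : ∑ i, ∑ j, (if i = j then (1:ℂ) else 0) * (X i * Y j)
      = ∑ i, ∑ j, (1/5 + a i * a' j + a' i * a j + b i * b' j + b' i * b j) * (X i * Y j) := by
    refine Finset.sum_congr rfl (fun i _ => Finset.sum_congr rfl (fun j _ => ?_))
    rw [h i j]
  rw [h1, h2]
  simp only [Finset.sum_mul_sum, Finset.sum_div, ← Finset.sum_add_distrib]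
  refine Finset.sum_congr rfl (fun i _ => Finset.sum_congr rfl (fun j _ => ?_))
  ring

/-- pair sums -/
def s2 (x y : Fin 5 → ℂ) : ℂ := ∑ i, x i * y i
/-- triple sums -/
def t (x y z : Fin 5 → ℂ) : ℂ := ∑ i, x i * y i * z i
/-- quadruple sums -/
def q4 (x y z w : Fin 5 → ℂ) : ℂ := ∑ i, x i * y i * z i * w i
/-- quintuple sums -/
def q5 (x y z w v : Fin 5 → ℂ) : ℂ := ∑ i, x i * y i * z i * w i * v i

lemma s2_comm (x y : Fin 5 → ℂ) : s2 x y = s2 y x :=
  Finset.sum_congr rfl (fun i _ => by ring)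
lemma t12 (x y z : Fin 5 → ℂ) : t x y z = t y x z := Finset.sum_congr rfl (fun i _ => by ring)
lemma t23 (x y z : Fin 5 → ℂ) : t x y z = t x z y := Finset.sum_congr rfl (fun i _ => by ring)
lemma q12 (x y z w : Fin 5 → ℂ) : q4 x y z w = q4 y x z w :=
  Finset.sum_congr rfl (fun i _ => by ring)
lemma q23 (x y z w : Fin 5 → ℂ) : q4 x y z w = q4 x z y w :=
  Finset.sum_congr rfl (fun i _ => by ring)
lemma q34 (x y z w : Fin 5 → ℂ) : q4 x y z w = q4 x y w z :=
  Finset.sum_congr rfl (fun i _ => by ring)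

/-- The simplex data: orthogonality relations and the Gram identity. -/
structure Simplex (a a' b b' : Fin 5 → ℂ) : Prop where
  sa : ∑ i, a i = 0
  sa' : ∑ i, a' i = 0
  sb : ∑ i, b i = 0
  sb' : ∑ i, b' i = 0
  aa : s2 a a = 0
  a'a' : s2 a' a' = 0
  bb : s2 b b = 0
  b'b' : s2 b' b' = 0
  ab : s2 a b = 0
  ab' : s2 a b' = 0
  a'b : s2 a' b = 0
  a'b' : s2 a' b' = 0
  aa' : s2 a a' = 1
  bb' : s2 b b' = 1
  tight : Tight a a' b b'

lemma P4 {a a' b b' : Fin 5 → ℂ} (h : Simplex a a' b b') (x y z w : Fin 5 → ℂ) :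
    q4 x y z w = s2 x y * s2 z w / 5 + t x y a * t z w a' + t x y a' * t z w a
      + t x y b * t z w b' + t x y b' * t z w b := by
  have := parseval h.tight (fun i => x i * y i) (fun i => z i * w i)
  simp only [q4, s2, t]
  rw [← this]
  exact Finset.sum_congr rfl (fun i _ => by ring)

/-- equal norms: `|a|^2 + |b|^2` is constant. -/
lemma const_norm {a a' b b' : Fin 5 → ℂ} (h : Simplex a a' b b') (i : Fin 5) :
    a i * a' i + b i * b' i = 2/5 := by
  have := h.tight i i
  simp only [if_true] at this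
  linear_combination (-1/2) * this

lemma lin {a a' b b' : Fin 5 → ℂ} (h : Simplex a a' b b') (x : Fin 5 → ℂ) (hx : ∑ i, x i = 0) :
    t a a' x + t b b' x = 0 := by
  have : t a a' x + t b b' x = ∑ i, (2/5) * x i := by
    simp only [t, ← Finset.sum_add_distrib]
    refine Finset.sum_congr rfl (fun i _ => ?_)
    linear_combination x i * const_norm h i
  rw [this, ← Finset.mul_sum, hx, mul_zero]

end Pool.Agent.Helper78.Makeev
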