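import Pool.Agent.Helper78.Makeev.Limit

set_option autoImplicit false
set_option linter.unusedSimpArgs false

open Finset ComplexConjugate Filter Topology

namespace Pool.Agent.Helper78.Makeev

abbrev Conf := (Fin 5 → ℂ) × (Fin 5 → ℂ)

lemma cont_s2 {F G : Conf → (Fin 5 → ℂ)} (hF : Continuous F) (hG : Continuous G) :
    Continuous (fun u => s2 (F u) (G u)) := by
  unfold s2
  fun_prop

lemma cont_cj {F : Conf → (Fin 5 → ℂ)} (hF : Continuous F) :
    Continuous (fun u => cj (F u)) := by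
  unfold cj
  apply continuous_pi
  intro i
  exact Complex.continuous_conj.comp ((continuous_apply i).comp hF)

lemma cont_Lm {F G P Q : Conf → (Fin 5 → ℂ)} (hF : Continuous F) (hG : Continuous G)
    (hP : Continuous P) (hQ : Continuous Q) :
    Continuous (fun u => Lm (F u) (G u) (P u) (Q u)) := by
  unfold Lm
  fun_prop

lemma cont_LG {F F' G P Q : Conf → (Fin 5 → ℂ)} (hF : Continuous F) (hF' : Continuous F')
    (hG : Continuous G) (hP : Continuous P) (hQ : Continuous Q) :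
    Continuous (fun u => LG (F u) (F' u) (G u) (P u) (Q u)) := by
  unfold LG
  fun_prop

lemma lim_eq {F G : Conf → ℂ} (hF : Continuous F) (hG : Continuous G) {u : ℕ → Conf} {w : Conf}
    (h : Tendsto u atTop (𝓝 w)) (he : ∀ k, F (u k) = G (u k)) : F w = G w := by
  have h1 : Tendsto (fun k => F (u k)) atTop (𝓝 (F w)) := (hF.tendsto w).comp h
  have h2 : Tendsto (fun k => G (u k)) atTop (𝓝 (G w)) := (hG.tendsto w).comp h
  simp only [he] at h1
  exact tendsto_nhds_unique h1 h2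

lemma simplex_lim {u : ℕ → Conf} {w : Conf} (h : Tendsto u atTop (𝓝 w))
    (hs : ∀ k, Simplex (u k).1 (cj (u k).1) (u k).2 (cj (u k).2)) :
    Simplex w.1 (cj w.1) w.2 (cj w.2) := by
  have c1 : Continuous (fun u : Conf => u.1) := continuous_fst
  have c2 : Continuous (fun u : Conf => u.2) := continuous_snd
  have c1' : Continuous (fun u : Conf => cj u.1) := cont_cj c1
  have c2' : Continuous (fun u : Conf => cj u.2) := cont_cj c2
  have hc : ∀ c : ℂ, Continuous (fun _ : Conf => c) := fun c => continuous_const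
  constructor
  · exact lim_eq (F := fun u => ∑ i, u.1 i) (by fun_prop) (hc 0) h (fun k => (hs k).sa)
  · exact lim_eq (F := fun u => ∑ i, (cj u.1) i) (by fun_prop) (hc 0) h (fun k => (hs k).sa')
  · exact lim_eq (F := fun u => ∑ i, u.2 i) (by fun_prop) (hc 0) h (fun k => (hs k).sb)
  · exact lim_eq (F := fun u => ∑ i, (cj u.2) i) (by fun_prop) (hc 0) h (fun k => (hs k).sb')
  · exact lim_eq (cont_s2 c1 c1) (hc 0) h (fun k => (hs k).aa)
  · exact lim_eq (cont_s2 c1' c1') (hc 0) h (fun k => (hs k).a'a')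
  · exact lim_eq (cont_s2 c2 c2) (hc 0) h (fun k => (hs k).bb)
  · exact lim_eq (cont_s2 c2' c2') (hc 0) h (fun k => (hs k).b'b')
  · exact lim_eq (cont_s2 c1 c2) (hc 0) h (fun k => (hs k).ab)
  · exact lim_eq (cont_s2 c1 c2') (hc 0) h (fun k => (hs k).ab')
  · exact lim_eq (cont_s2 c1' c2) (hc 0) h (fun k => (hs k).a'b)
  · exact lim_eq (cont_s2 c1' c2') (hc 0) h (fun k => (hs k).a'b')
  · exact lim_eq (cont_s2 c1 c1') (hc 1) h (fun k => (hs k).aa')
  · exact lim_eq (cont_s2 c2 c2') (hc 1) h (fun k => (hs k).bb')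
  · intro i j
    refine lim_eq (F := fun _ => if i = j then (1:ℂ) else 0)
      (G := fun u => 1/5 + u.1 i * (cj u.1) j + (cj u.1) i * u.1 j + u.2 i * (cj u.2) j
        + (cj u.2) i * u.2 j) (hc _) (by fun_prop) h (fun k => (hs k).tight i j)

lemma bound {a b : Fin 5 → ℂ} (h : Simplex a (cj a) b (cj b)) (i : Fin 5) :
    ‖a i‖ ≤ 1 ∧ ‖b i‖ ≤ 1 := by
  have h1 := const_norm h i
  simp only [cj] at h1
  rw [Complex.mul_conj, Complex.mul_conj] at h1
  have h2 : Complex.normSq (a i) + Complex.normSq (b i) = 2/5 := by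
    apply Complex.ofReal_injective
    push_cast
    exact h1
  rw [Complex.normSq_eq_norm_sq, Complex.normSq_eq_norm_sq] at h2
  constructor <;> nlinarith [norm_nonneg (a i), norm_nonneg (b i)]

theorem exists_eps : ∃ ε : ℝ, 0 < ε ∧ ∀ a b : Fin 5 → ℂ, ¬ Good ε a b := by
  by_contra hcon
  push Not at hcon
  have hk : ∀ k : ℕ, ∃ u : Conf, Good (1/((k:ℝ)+1)) u.1 u.2 := by
    intro k
    obtain ⟨a, b, h⟩ := hcon (1/((k:ℝ)+1)) (by positivity)
    exact ⟨(a, b), h⟩
  choose u hu using hk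
  have hball : ∀ k, u k ∈ Metric.closedBall (0 : Conf) 1 := by
    intro k
    rw [mem_closedBall_zero_iff, Prod.norm_def]
    apply max_le
    · rw [pi_norm_le_iff_of_nonneg zero_le_one]
      exact fun i => (bound (hu k).simplex i).1
    · rw [pi_norm_le_iff_of_nonneg zero_le_one]
      exact fun i => (bound (hu k).simplex i).2
  obtain ⟨w, -, φ, hφ, hlim⟩ := (isCompact_closedBall (0 : Conf) 1).tendsto_subseq hball
  have hS := simplex_lim hlim (fun k => (hu (φ k)).simplex)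
  have c1 : Continuous (fun u : Conf => u.1) := continuous_fst
  have c2 : Continuous (fun u : Conf => u.2) := continuous_snd
  have c1' : Continuous (fun u : Conf => cj u.1) := cont_cj c1
  have c2' : Continuous (fun u : Conf => cj u.2) := cont_cj c2
  have hc : ∀ c : ℂ, Continuous (fun _ : Conf => c) := fun c => continuous_const
  have heps : Tendsto (fun k => ((1/((φ k:ℝ)+1) : ℝ) : ℂ)) atTop (𝓝 0) := by
    have h1 : Tendsto (fun n : ℕ => 1/((n:ℝ)+1)) atTop (𝓝 0) :=
      tendsto_one_div_add_atTop_nhds_zero_nat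
    have h2 := h1.comp hφ.tendsto_atTop
    have h3 := (Complex.continuous_ofReal.tendsto 0).comp h2
    rw [Complex.ofReal_zero] at h3
    exact h3
  -- limit of the functionals
  have hLF : ∀ P Q : Conf → (Fin 5 → ℂ), Continuous P → Continuous Q →
      (∀ k, LF (1/((φ k:ℝ)+1)) (u (φ k)).1 (u (φ k)).2 (P (u (φ k))) (Q (u (φ k))) = 0) →
      Lm w.1 (cj w.2) (P w) (Q w) + Lm (cj w.1) w.2 (P w) (Q w) = 0 := by
    intro P Q hP hQ h0
    have t1 : Tendsto (fun k => (1/2 : ℂ) * (Lm (u (φ k)).1 (cj (u (φ k)).2) (P (u (φ k)))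
        (Q (u (φ k))) + Lm (cj (u (φ k)).1) (u (φ k)).2 (P (u (φ k))) (Q (u (φ k))))) atTop
        (𝓝 ((1/2 : ℂ) * (Lm w.1 (cj w.2) (P w) (Q w) + Lm (cj w.1) w.2 (P w) (Q w)))) := by
      have hcont : Continuous (fun v : Conf => (1/2 : ℂ) * (Lm v.1 (cj v.2) (P v) (Q v)
        + Lm (cj v.1) v.2 (P v) (Q v))) :=
        continuous_const.mul ((cont_Lm c1 c2' hP hQ).add (cont_Lm c1' c2 hP hQ))
      exact (hcont.tendsto w).comp hlim
    have t2 : Tendsto (fun k => (((1/((φ k:ℝ)+1) : ℝ) : ℂ) / (2 * Complex.I)) *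
        (LG (u (φ k)).1 (cj (u (φ k)).1) (cj (u (φ k)).2) (P (u (φ k))) (Q (u (φ k)))
        - LG (cj (u (φ k)).1) (u (φ k)).1 (u (φ k)).2 (P (u (φ k))) (Q (u (φ k))))) atTop
        (𝓝 ((0 / (2 * Complex.I)) * (LG w.1 (cj w.1) (cj w.2) (P w) (Q w)
          - LG (cj w.1) w.1 w.2 (P w) (Q w)))) := by
      have hcont : Continuous (fun v : Conf => LG v.1 (cj v.1) (cj v.2) (P v) (Q v)
          - LG (cj v.1) v.1 v.2 (P v) (Q v)) :=
        (cont_LG c1 c1' c2' hP hQ).sub (cont_LG c1' c1 c2 hP hQ)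
      exact (heps.div_const _).mul ((hcont.tendsto w).comp hlim)
    have t3 := t1.add t2
    have t4 : Tendsto (fun _ : ℕ => (0:ℂ)) atTop (𝓝 0) := tendsto_const_nhds
    have t5 := tendsto_nhds_unique (t3.congr (fun k => by
      have := h0 k
      unfold LF at this
      exact this)) t4
    rw [zero_div, zero_mul, add_zero] at t5
    have h2 : (1/2 : ℂ) ≠ 0 := by norm_num
    exact (mul_eq_zero.mp t5).resolve_left h2
  refine contra_of_limit w.1 w.2 hS
    (hLF (fun v => v.1) (fun v => v.2) c1 c2 (fun k => (hu (φ k)).e1))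
    (hLF (fun v => v.1) (fun v => cj v.2) c1 c2' (fun k => (hu (φ k)).e2))
    (hLF (fun v => v.1) (fun v => cj v.1) c1 c1' (fun k => (hu (φ k)).e3)) ?_
  refine lim_eq (F := fun v => (LG v.1 (cj v.1) (cj v.2) v.1 (cj v.1)
      + 2 * LG v.1 (cj v.1) (cj v.2) v.2 (cj v.2))
      - (LG (cj v.1) v.1 v.2 v.1 (cj v.1) + 2 * LG (cj v.1) v.1 v.2 v.2 (cj v.2))) ?_ (hc 0) hlim
      (fun k => Good.mu (by positivity) (hu (φ k)))
  exact ((cont_LG c1 c1' c2' c1 c1').add (continuous_const.mul (cont_LG c1 c1' c2' c2 c2'))).sub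
    ((cont_LG c1' c1 c2 c1 c1').add (continuous_const.mul (cont_LG c1' c1 c2 c2 c2')))

end Pool.Agent.Helper78.Makeev
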