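import Pool.Agent.Helper78.Makeev.Mu

set_option autoImplicit false
set_option linter.unusedSimpArgs false

open Finset ComplexConjugate

namespace Pool.Agent.Helper78.Makeev

lemma real_contra (r T m p q B : ℝ) (hT : 0 ≤ T) (hm : 0 ≤ m) (hp : 0 ≤ p)
    (h1 : 4 * T + p + r = 1/5 + 2 * m) (h2 : T + q + B = 1/5 + m)
    (h3 : p + q = r + T) (h4 : r + T = 1/5 - 3 * m) (h5 : 9 * (r * T) = m * q)
    (h6 : B * T = 49 * (r * T)) (hmu : r = 0 ∨ 60 * m - 45 * T = 1) : False := by
  have hp' : p = 5 * m - 3 * T := by linarith
  have hr' : r = 1/5 - 3 * m - T := by linarith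
  have hq' : q = 1/5 - 8 * m + 3 * T := by linarith
  have hB' : B = 9 * m - 4 * T := by linarith
  subst hp' hr' hq' hB'
  rcases hmu with h0 | h0
  · have hT' : T = 1/5 - 3 * m := by linarith
    subst hT'
    have h7 : m * (4/5 - 17 * m) = 0 := by nlinarith
    rcases mul_eq_zero.mp h7 with h8 | h8
    · subst h8
      norm_num at hp
    · have : m = 4/85 := by linarith
      subst this
      norm_num at h6
  · have hm' : m = (1 + 45 * T) / 60 := by linarith
    subst hm'
    rcases eq_or_lt_of_le hT with h8 | h8
    · rw [← h8] at h5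
      norm_num at h5
    · have h9 : (9 * ((1 + 45 * T) / 60) - 4 * T) = 49 * (1/5 - 3 * ((1 + 45 * T) / 60) - T) := by
        have : T ≠ 0 := ne_of_gt h8
        have h10 : ((9 * ((1 + 45 * T) / 60) - 4 * T)) * T
            = (49 * (1/5 - 3 * ((1 + 45 * T) / 60) - T)) * T := by linarith
        exact mul_right_cancel₀ this h10
      have hT2 : T = 2/45 := by linarith
      subst hT2
      norm_num at h5


lemma LG_antisymm (a a' b' p q : Fin 5 → ℂ) : LG a a' b' p q = - LG a a' b' q p := by
  simp only [LG, ← Finset.sum_neg_distrib]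
  rw [Finset.sum_comm]
  refine Finset.sum_congr rfl (fun i _ => Finset.sum_congr rfl (fun j _ => ?_))
  ring

lemma t_conj (x y z : Fin 5 → ℂ) :
    t (fun i => conj (x i)) (fun i => conj (y i)) (fun i => conj (z i)) = conj (t x y z) := by
  simp [t]

theorem no_crit (a b : Fin 5 → ℂ)
    (h : Crit a (fun i => conj (a i)) b (fun i => conj (b i)))
    (hmu : (LG a (fun i => conj (a i)) (fun i => conj (b i)) a (fun i => conj (a i))
        + 2 * LG a (fun i => conj (a i)) (fun i => conj (b i)) b (fun i => conj (b i)))
      - (LG (fun i => conj (a i)) a b a (fun i => conj (a i))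
        + 2 * LG (fun i => conj (a i)) a b b (fun i => conj (b i))) = 0) : False := by
  set a' : Fin 5 → ℂ := fun i => conj (a i) with ha'
  set b' : Fin 5 → ℂ := fun i => conj (b i) with hb'
  have hcc : ∀ x : Fin 5 → ℂ, (fun i => conj (conj (x i))) = x := by
    intro x; funext i; simp
  have X1 := X_eq h
  have X2 := X_eq h.symm
  rw [X1, LG_antisymm a' a b a a', LG_antisymm a' a b b b'] at hmu
  have hR := h.hR
  have cR : t a' a' b = conj (t a a b') := by
    have := t_conj a a b'
    simp only [hb', hcc] at this
    exact this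
  have cP : t a' a' b' = conj (t a a b) := t_conj a a b
  have cM : t a a' b' = conj (t a a' b) := by
    have := t_conj a a' b
    simp only [ha', hcc] at this
    rw [← this]
    exact t12 _ _ _
  have cQ : t a' b' b' = conj (t a b b) := t_conj a b b
  have cT : t a' b b = conj (t a b' b') := by
    have := t_conj a b' b'
    simp only [hb', hcc] at this
    exact this
  have cB : t b' b' b' = conj (t b b b) := t_conj b b b
  have e1 := E1 h
  have e2 := E2 h
  have e3 := E3 h
  have e4 := E4 h
  have e6 := E6 h
  have e6' := E6' h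
  have e11 := E11 h
  have e11' := E11' h
  have nR : t a' a' b * t a' a' b = (Complex.normSq (t a' a' b) : ℂ) := by
    have cRR : conj (t a' a' b) = t a' a' b := by
      conv_rhs => rw [cR, hR]
    rw [← Complex.mul_conj, cRR]
  have nP : t a a b * t a' a' b' = (Complex.normSq (t a a b) : ℂ) := by
    rw [cP, Complex.mul_conj]
  have nM : t a a' b * t a a' b' = (Complex.normSq (t a a' b) : ℂ) := by
    rw [cM, Complex.mul_conj]
  have nQ : t a b b * t a' b' b' = (Complex.normSq (t a b b) : ℂ) := by
    rw [cQ, Complex.mul_conj]
  have nT : t a b' b' * t a' b b = (Complex.normSq (t a b' b') : ℂ) := by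
    rw [cT, Complex.mul_conj]
  have nB : t b b b * t b' b' b' = (Complex.normSq (t b b b) : ℂ) := by
    rw [cB, Complex.mul_conj]
  have f1 : 4 * Complex.normSq (t a b' b') + Complex.normSq (t a a b)
      + Complex.normSq (t a' a' b) = 1/5 + 2 * Complex.normSq (t a a' b) := by
    rw [nT, nP, nR, nM] at e1
    apply Complex.ofReal_injective
    push_cast
    linear_combination e1
  have f2 : Complex.normSq (t a b' b') + Complex.normSq (t a b b) + Complex.normSq (t b b b)
      = 1/5 + Complex.normSq (t a a' b) := by
    rw [nT, nQ, nB, nM] at e2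
    apply Complex.ofReal_injective
    push_cast
    linear_combination e2
  have f3 : Complex.normSq (t a a b) + Complex.normSq (t a b b)
      = Complex.normSq (t a' a' b) + Complex.normSq (t a b' b') := by
    rw [nP, nQ, nR, nT] at e3
    apply Complex.ofReal_injective
    push_cast
    linear_combination e3
  have f4 : Complex.normSq (t a' a' b) + Complex.normSq (t a b' b')
      = 1/5 - 3 * Complex.normSq (t a a' b) := by
    rw [nR, nT, nM] at e4
    apply Complex.ofReal_injective
    push_cast
    linear_combination e4
  have f5 : 9 * (Complex.normSq (t a' a' b) * Complex.normSq (t a b' b'))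
      = Complex.normSq (t a a' b) * Complex.normSq (t a b b) := by
    have : (9:ℂ) * ((t a' a' b * t a' a' b) * (t a b' b' * t a' b b))
        = (t a a' b * t a a' b') * (t a b b * t a' b' b') := by
      linear_combination (3 * (t a' a' b * t a b' b')) * e6 + (t a a' b' * t a b b) * e6'
    rw [nR, nT, nM, nQ] at this
    exact_mod_cast this
  have f6 : Complex.normSq (t b b b) * Complex.normSq (t a b' b')
      = 49 * (Complex.normSq (t a' a' b) * Complex.normSq (t a b' b')) := by
    have g1 : t b b b * t a b' b' = -7 * (t a' a' b * t a' b b) := by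
      linear_combination e11 + 2 * e6
    have g2 : t b' b' b' * t a' b b = -7 * (t a' a' b * t a b' b') := by
      linear_combination e11' + 2 * e6'
    have : (t b b b * t b' b' b') * (t a b' b' * t a' b b)
        = 49 * ((t a' a' b * t a' a' b) * (t a b' b' * t a' b b)) := by
      linear_combination (t b' b' b' * t a' b b) * g1 + (-7 * (t a' a' b * t a' b b)) * g2
    rw [nB, nR, nT] at this
    exact_mod_cast this
  have hmu2 : t a' a' b * (60 * (t a a' b * t a a' b') - 45 * (t a b' b' * t a' b b) - 1) = 0 := by
    have e : t a' a b' = t a a' b' := t12 _ _ _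
    have e' : t a' a b = t a a' b := t12 _ _ _
    rw [e, e', hR] at X2
    linear_combination (1/2) * hmu - (1/2) * X2
  rw [nM, nT] at hmu2
  refine real_contra _ _ _ _ _ _ (Complex.normSq_nonneg _) (Complex.normSq_nonneg _)
    (Complex.normSq_nonneg _) f1 f2 f3 f4 f5 f6 ?_
  rcases mul_eq_zero.mp hmu2 with h0 | h0
  · left
    rw [h0]; simp
  · right
    have : ((60 * Complex.normSq (t a a' b) - 45 * Complex.normSq (t a b' b') - 1 : ℝ) : ℂ) = 0 := by
      push_cast
      exact h0
    have := Complex.ofReal_eq_zero.mp this
    linarith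

end Pool.Agent.Helper78.Makeev
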