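import Pool.Agent.Helper78.Makeev.Functional

set_option autoImplicit false
set_option linter.unusedSimpArgs false

open Finset ComplexConjugate

namespace Pool.Agent.Helper78.Makeev

/-- Critical simplices: the equations obtained from the cubic part. -/
structure Crit (a a' b b' : Fin 5 → ℂ) : Prop extends Simplex a a' b b' where
  hT : t a a a = 2 * t a' b b
  hT' : t a' a' a' = 2 * t a b' b'
  hN : t a a' a' = 2 * t a' b b'
  hN' : t a a a' = 2 * t a b b'
  hR : t a a b' = t a' a' b

lemma N_zero {a a' b b' : Fin 5 → ℂ} (h : Crit a a' b b') : t a b b' = 0 := by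
  have h1 := lin h.toSimplex a h.sa
  have e1 : t a a' a = t a a a' := t23 _ _ _
  have e2 : t b b' a = t a b b' := by rw [t23, t12]
  rw [e1, e2, h.hN'] at h1
  linear_combination (1/3) * h1

lemma N'_zero {a a' b b' : Fin 5 → ℂ} (h : Crit a a' b b') : t a' b b' = 0 := by
  have h1 := lin h.toSimplex a' h.sa'
  have e2 : t b b' a' = t a' b b' := by rw [t23, t12]
  rw [e2, h.hN] at h1
  linear_combination (1/3) * h1

lemma beta {a a' b b' : Fin 5 → ℂ} (h : Crit a a' b b') : t b b b' = - t a a' b := by
  have h1 := lin h.toSimplex b h.sb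
  have e2 : t b b' b = t b b b' := t23 _ _ _
  rw [e2] at h1
  linear_combination h1

lemma beta' {a a' b b' : Fin 5 → ℂ} (h : Crit a a' b b') : t b b' b' = - t a a' b' := by
  have h1 := lin h.toSimplex b' h.sb'
  linear_combination h1


lemma q5_12 (x y z w v : Fin 5 → ℂ) : q5 x y z w v = q5 y x z w v :=
  Finset.sum_congr rfl (fun i _ => by ring)
lemma q5_23 (x y z w v : Fin 5 → ℂ) : q5 x y z w v = q5 x z y w v :=
  Finset.sum_congr rfl (fun i _ => by ring)
lemma q5_34 (x y z w v : Fin 5 → ℂ) : q5 x y z w v = q5 x y w z v :=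
  Finset.sum_congr rfl (fun i _ => by ring)
lemma q5_45 (x y z w v : Fin 5 → ℂ) : q5 x y z w v = q5 x y z v w :=
  Finset.sum_congr rfl (fun i _ => by ring)

section
variable {a a' b b' : Fin 5 → ℂ}

lemma E1 (h : Crit a a' b b') :
    4 * (t a b' b' * t a' b b) + t a a b * t a' a' b' + t a' a' b * t a' a' b
      = 1/5 + 2 * (t a a' b * t a a' b') := by
  have l := P4 h.toSimplex a a a' a'
  have r := P4 h.toSimplex a a' a a'
  simp only [t12, t23, q12, q23, q34, h.aa, h.aa', h.hT, h.hT', h.hN, h.hN', N_zero h, N'_zero h,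
    h.hR] at l r
  linear_combination r - l

lemma E2 (h : Crit a a' b b') :
    t a b' b' * t a' b b + t a b b * t a' b' b' + t b b b * t b' b' b'
      = 1/5 + t a a' b * t a a' b' := by
  have l := P4 h.toSimplex b b b' b'
  have r := P4 h.toSimplex b b' b b'
  simp only [t12, t23, q12, q23, q34, h.bb, h.bb', N_zero h, N'_zero h, beta h, beta' h] at l r
  linear_combination r - l

lemma E3 (h : Crit a a' b b') :
    t a a b * t a' a' b' + t a b b * t a' b' b' = t a' a' b * t a' a' b + t a b' b' * t a' b b := by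
  have l := P4 h.toSimplex a b a' b'
  have r := P4 h.toSimplex a b' a' b
  simp only [t12, t23, q12, q23, q34, h.ab, h.ab', h.a'b, N_zero h, N'_zero h, h.hR] at l r
  linear_combination r - l

lemma E4 (h : Crit a a' b b') :
    t a' a' b * t a' a' b + t a b' b' * t a' b b = 1/5 - 3 * (t a a' b * t a a' b') := by
  have l := P4 h.toSimplex a a' b b'
  have r := P4 h.toSimplex a b' a' b
  simp only [t12, t23, q12, q23, q34, h.aa', h.bb', h.ab', h.a'b, N_zero h, N'_zero h, h.hR,
    beta h, beta' h, h.hN, h.hN'] at l r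
  linear_combination l - r

lemma E5 (h : Crit a a' b b') :
    t a b b * t a b' b' = -2 * (t a a b * t a a' b' + t a' a' b * t a a' b) := by
  have l := P4 h.toSimplex a a b b'
  have r := P4 h.toSimplex a b a b'
  simp only [t12, t23, q12, q23, q34, h.aa, h.ab', h.ab, h.bb', N_zero h, N'_zero h, h.hR,
    beta h, beta' h, h.hN, h.hN', h.hT] at l r
  linear_combination l - r

lemma E5' (h : Crit a a' b b') :
    t a' b' b' * t a' b b = -2 * (t a' a' b' * t a a' b + t a' a' b * t a a' b') := by
  have l := P4 h.toSimplex a' a' b b'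
  have r := P4 h.toSimplex a' b a' b'
  simp only [t12, t23, q12, q23, q34, h.a'a', h.a'b', h.a'b, h.bb', N_zero h, N'_zero h, h.hR,
    beta h, beta' h, h.hN, h.hN', h.hT'] at l r
  linear_combination l - r

lemma E6 (h : Crit a a' b b') : 3 * (t a' a' b * t a' b b) = t a a' b' * t a b b := by
  have l := P4 h.toSimplex a a a' b
  have r := P4 h.toSimplex a a' a b
  simp only [t12, t23, q12, q23, q34, h.aa, h.aa', h.ab, h.a'b, N_zero h, N'_zero h, h.hR,
    beta h, beta' h, h.hN, h.hN', h.hT] at l r
  linear_combination r - l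

lemma E6' (h : Crit a a' b b') : 3 * (t a' a' b * t a b' b') = t a a' b * t a' b' b' := by
  have l := P4 h.toSimplex a' a' a b'
  have r := P4 h.toSimplex a a' a' b'
  simp only [t12, t23, q12, q23, q34, h.a'a', h.aa', h.ab', h.a'b', N_zero h, N'_zero h, h.hR,
    beta h, beta' h, h.hN, h.hN', h.hT'] at l r
  linear_combination r - l

lemma E11 (h : Crit a a' b b') :
    2 * (t a b b * t a a' b') + t a' a' b * t a' b b + t b b b * t a b' b' = 0 := by
  have l := P4 h.toSimplex a b b b'
  have r := P4 h.toSimplex b b a b'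
  simp only [t12, t23, q12, q23, q34, h.bb, h.bb', h.ab, h.ab', N_zero h, N'_zero h, h.hR,
    beta h, beta' h] at l r
  linear_combination l - r

lemma E11' (h : Crit a a' b b') :
    2 * (t a' b' b' * t a a' b) + t a' a' b * t a b' b' + t b' b' b' * t a' b b = 0 := by
  have l := P4 h.toSimplex a' b' b b'
  have r := P4 h.toSimplex b' b' a' b
  simp only [t12, t23, q12, q23, q34, h.b'b', h.bb', h.a'b, h.a'b', N_zero h, N'_zero h, h.hR,
    beta h, beta' h] at l r
  linear_combination l - r

end

end Pool.Agent.Helper78.Makeev
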