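import Pool.Agent.Helper78.Makeev.Compact

set_option autoImplicit false
set_option linter.unusedSimpArgs false

open Finset ComplexConjugate Filter Topology

namespace Pool.Agent.Helper78.Makeev

abbrev V4 := EuclideanSpace ℝ (Fin 4)

noncomputable def zA (u : V4) : ℂ := (u 0 : ℂ) + (u 1 : ℂ) * Complex.I
noncomputable def zB (u : V4) : ℂ := (u 2 : ℂ) + (u 3 : ℂ) * Complex.I

/-- The odd function on `ℂ² = ℝ⁴`: `Re(z₁² conj z₂) + ε |z₁|² Im(z₁² conj z₂)`. -/
noncomputable def ff (ε : ℝ) (u : V4) : ℝ :=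
  ((zA u)^2 * conj (zB u)).re + ε * (Complex.normSq (zA u) * ((zA u)^2 * conj (zB u)).im)

lemma zA_sub (u v : V4) : zA (u - v) = zA u - zA v := by
  simp [zA]; ring
lemma zB_sub (u v : V4) : zB (u - v) = zB u - zB v := by
  simp [zB]; ring
lemma zA_neg (u : V4) : zA (-u) = - zA u := by
  simp [zA]; ring
lemma zB_neg (u : V4) : zB (-u) = - zB u := by
  simp [zB]; ring

lemma ff_neg (ε : ℝ) (u : V4) : ff ε (-u) = - ff ε u := by
  unfold ff
  rw [zA_neg, zB_neg]
  simp only [map_neg, neg_sq, mul_neg, Complex.neg_re, Complex.neg_im, Complex.normSq_neg]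
  ring

lemma cont_zA : Continuous zA := by
  unfold zA
  fun_prop

lemma cont_zB : Continuous zB := by
  unfold zB
  fun_prop

lemma ff_cont (ε : ℝ) : Continuous (ff ε) := by
  unfold ff
  have h := cont_zA
  have h' := cont_zB
  have h1 : Continuous (fun u => (zA u)^2 * conj (zB u)) :=
    (h.pow 2).mul (Complex.continuous_conj.comp h')
  exact (Complex.continuous_re.comp h1).add (continuous_const.mul
    ((Complex.continuous_normSq.comp h).mul (Complex.continuous_im.comp h1)))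

lemma ff_complex (ε : ℝ) (u : V4) : (ff ε u : ℂ) =
    (1/2) * ((zA u)^2 * conj (zB u) + (conj (zA u))^2 * zB u)
      + ε / (2 * Complex.I) * ((zA u)^3 * conj (zA u) * conj (zB u)
        - (conj (zA u))^3 * zA u * zB u) := by
  unfold ff
  push_cast
  rw [Complex.re_eq_add_conj, Complex.im_eq_sub_conj, Complex.normSq_eq_conj_mul_self]
  simp only [map_mul, map_pow, Complex.conj_conj]
  have : (Complex.I : ℂ) ≠ 0 := Complex.I_ne_zero
  field_simp

lemma LF_sum (ε : ℝ) (w : Fin 5 → V4) (p q : Fin 5 → ℂ) :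
    LF ε (fun i => zA (w i)) (fun i => zB (w i)) p q
      = ∑ i, ∑ j, (ff ε (w j - w i) : ℂ) * (p i * q j) := by
  simp only [LF, Lm, LG, cj, ff_complex, zA_sub, zB_sub, map_sub]
  simp only [Finset.mul_sum, ← Finset.sum_add_distrib, ← Finset.sum_sub_distrib]
  refine Finset.sum_congr rfl (fun i _ => Finset.sum_congr rfl (fun j _ => ?_))
  ring

lemma LF_zero (ε : ℝ) (w : Fin 5 → V4) (y : Fin 5 → ℝ)
    (hy : ∀ i j, ff ε (w j - w i) = y j - y i) (p q : Fin 5 → ℂ)
    (hp : ∑ i, p i = 0) (hq : ∑ i, q i = 0) :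
    LF ε (fun i => zA (w i)) (fun i => zB (w i)) p q = 0 := by
  rw [LF_sum]
  simp only [hy]
  have : ∑ i, ∑ j, (((y j - y i : ℝ)) : ℂ) * (p i * q j)
      = (∑ i, p i) * (∑ j, (y j : ℂ) * q j) - (∑ i, (y i : ℂ) * p i) * (∑ j, q j) := by
    simp only [Finset.sum_mul_sum, ← Finset.sum_sub_distrib]
    refine Finset.sum_congr rfl (fun i _ => Finset.sum_congr rfl (fun j _ => ?_))
    push_cast
    ring
  rw [this, hp, hq]
  ring


noncomputable def c1 : ℝ := Real.sqrt (1/40)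
noncomputable def c2 : ℝ := Real.sqrt (1/8)
lemma c1_sq : c1 * c1 = 1/40 := Real.mul_self_sqrt (by norm_num)
lemma c2_sq : c2 * c2 = 1/8 := Real.mul_self_sqrt (by norm_num)

/-- A centred regular simplex with unit edges. -/
noncomputable def vtx : Fin 5 → V4 :=
  ![!₂[0, 0, -4*c1, 0], !₂[1/2, 0, c1, c2], !₂[0, 1/2, c1, -c2], !₂[-1/2, 0, c1, c2],
    !₂[0, -1/2, c1, -c2]]

lemma vtx_sum : ∑ i, vtx i = 0 := by
  ext k
  fin_cases k <;> simp [vtx, Fin.sum_univ_five] <;> ring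

lemma vtx_gram (i j : Fin 5) : inner ℝ (vtx i) (vtx j) = if i = j then (2/5 : ℝ) else -1/10 := by
  have h1 := c1_sq
  have h2 := c2_sq
  have h3 : |c1| = c1 := abs_of_nonneg (Real.sqrt_nonneg _)
  rw [PiLp.inner_apply, Fin.sum_univ_four]
  fin_cases i <;> fin_cases j <;>
    simp [vtx, h3] <;> nlinarith

lemma vtx_frame (x y : V4) : ∑ i, inner ℝ (vtx i) x * inner ℝ (vtx i) y = (1/2) * inner ℝ x y := by
  have h1 := c1_sq
  have h2 := c2_sq
  simp [vtx, PiLp.inner_apply, Fin.sum_univ_four, Fin.sum_univ_five]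
  linear_combination (20 * (x 2 * y 2)) * h1 + (4 * (x 3 * y 3)) * h2

lemma vtx_dist (i j : Fin 5) (hij : i ≠ j) : dist (vtx i) (vtx j) = 1 := by
  have h : ‖vtx i - vtx j‖ ^ 2 = 1 := by
    rw [@norm_sub_sq ℝ, ← @real_inner_self_eq_norm_sq, ← @real_inner_self_eq_norm_sq, vtx_gram,
      vtx_gram, vtx_gram]
    simp [hij]; norm_num
  rw [dist_eq_norm]
  have h0 := norm_nonneg (vtx i - vtx j)
  nlinarith


section
variable (A : V4 ≃ₗᵢ[ℝ] V4)

lemma w_sum : ∑ i, A (vtx i) = 0 := by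
  rw [← map_sum, vtx_sum, map_zero]

lemma w_coord_sum (k : Fin 4) : ∑ i, (A (vtx i)) k = 0 := by
  have := congrArg (fun u : V4 => u k) (w_sum A)
  simpa using this

lemma w_gram (i j : Fin 5) :
    ∑ k, (A (vtx i)) k * (A (vtx j)) k = if i = j then (2/5 : ℝ) else -1/10 := by
  have h := vtx_gram i j
  rw [← A.inner_map_map, PiLp.inner_apply] at h
  rw [← h]
  refine Finset.sum_congr rfl (fun k _ => ?_)
  simp [mul_comm]

lemma w_frame (k l : Fin 4) :
    ∑ i, (A (vtx i)) k * (A (vtx i)) l = if k = l then (1/2 : ℝ) else 0 := by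
  have h := vtx_frame (A.symm (EuclideanSpace.single k 1)) (A.symm (EuclideanSpace.single l 1))
  have h1 : ∀ (i : Fin 5) (k : Fin 4),
      inner ℝ (vtx i) (A.symm (EuclideanSpace.single k 1)) = (A (vtx i)) k := by
    intro i k
    rw [← A.inner_map_map, A.apply_symm_apply, EuclideanSpace.inner_single_right]
    simp
  simp only [h1] at h
  rw [h, A.symm.inner_map_map, EuclideanSpace.inner_single_left]
  simp [eq_comm]

lemma s2_gen (x y u v : Fin 5 → ℝ) :
    s2 (fun i => (x i : ℂ) + (y i : ℂ) * Complex.I) (fun i => (u i : ℂ) + (v i : ℂ) * Complex.I)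
      = ((∑ i, x i * u i : ℝ) : ℂ) - ((∑ i, y i * v i : ℝ) : ℂ)
        + (((∑ i, x i * v i : ℝ) : ℂ) + ((∑ i, y i * u i : ℝ) : ℂ)) * Complex.I := by
  simp only [s2]
  push_cast
  simp only [← Finset.sum_add_distrib, ← Finset.sum_sub_distrib, Finset.sum_mul]
  refine Finset.sum_congr rfl (fun i _ => ?_)
  linear_combination ((y i : ℂ) * v i) * Complex.I_sq

lemma cj_gen (x y : Fin 5 → ℝ) :
    cj (fun i => (x i : ℂ) + (y i : ℂ) * Complex.I)
      = fun i => (x i : ℂ) + ((-y i : ℝ) : ℂ) * Complex.I := by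
  funext i
  simp [cj]

lemma sum_gen (x y : Fin 5 → ℝ) (hx : ∑ i, x i = 0) (hy : ∑ i, y i = 0) :
    ∑ i, ((x i : ℂ) + (y i : ℂ) * Complex.I) = 0 := by
  rw [Finset.sum_add_distrib, ← Finset.sum_mul]
  have h1 : ∑ i, (x i : ℂ) = 0 := by exact_mod_cast hx
  have h2 : ∑ i, (y i : ℂ) = 0 := by exact_mod_cast hy
  rw [h1, h2]; ring

lemma simplex_of_isometry :
    Simplex (fun i => zA (A (vtx i))) (cj (fun i => zA (A (vtx i))))
      (fun i => zB (A (vtx i))) (cj (fun i => zB (A (vtx i)))) := by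
  have hs := w_coord_sum A
  have hf := w_frame A
  have hg := w_gram A
  have hneg : ∀ k, ∑ i, - (A (vtx i)) k = 0 := by
    intro k; rw [Finset.sum_neg_distrib, hs k, neg_zero]
  simp only [zA, zB, cj_gen]
  constructor
  · exact sum_gen _ _ (hs 0) (hs 1)
  · exact sum_gen _ _ (hs 0) (hneg 1)
  · exact sum_gen _ _ (hs 2) (hs 3)
  · exact sum_gen _ _ (hs 2) (hneg 3)
  · rw [s2_gen]; simp [hf]
  · rw [s2_gen]; simp [hf]
  · rw [s2_gen]; simp [hf]
  · rw [s2_gen]; simp [hf]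
  · rw [s2_gen]; simp [hf]
  · rw [s2_gen]; simp [hf]
  · rw [s2_gen]; simp [hf]
  · rw [s2_gen]; simp [hf]
  · rw [s2_gen]; simp [hf]; norm_num
  · rw [s2_gen]; simp [hf]; norm_num
  · intro i j
    have h := hg i j
    rw [Fin.sum_univ_four] at h
    have hI := Complex.I_sq
    have key : (if i = j then (1:ℂ) else 0)
        = 1/5 + 2 * (((if i = j then (2/5 : ℝ) else -1/10 : ℝ)) : ℂ) := by
      split_ifs <;> norm_num
    rw [key, ← h]
    push_cast
    linear_combination (2 * ((A (vtx i)) 1 : ℂ) * ((A (vtx j)) 1 : ℂ)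
      + 2 * ((A (vtx i)) 3 : ℂ) * ((A (vtx j)) 3 : ℂ)) * hI

/-- No isometry makes the hyperplanes concurrent, for a suitable `ε`. -/
theorem no_concurrent : ∃ ε : ℝ, ∀ (A : V4 ≃ₗᵢ[ℝ] V4) (x : V4),
    ¬ ∀ i j : Fin 5, i < j → inner ℝ x (A (vtx j - vtx i)) = ff ε (A (vtx j - vtx i)) := by
  obtain ⟨ε, -, hε⟩ := exists_eps
  refine ⟨ε, fun A x hx => ?_⟩
  apply hε (fun i => zA (A (vtx i))) (fun i => zB (A (vtx i)))
  have hS := simplex_of_isometry A
  have hy : ∀ i j, ff ε (A (vtx j) - A (vtx i)) = inner ℝ x (A (vtx j)) - inner ℝ x (A (vtx i)) := by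
    intro i j
    rcases lt_trichotomy i j with h | h | h
    · have := hx i j h
      rw [map_sub, inner_sub_right] at this
      exact this.symm
    · subst h
      rw [sub_self, sub_self]
      simp [ff, zA, zB]
    · have := hx j i h
      rw [map_sub, inner_sub_right] at this
      have h2 : A (vtx j) - A (vtx i) = -(A (vtx i) - A (vtx j)) := by abel
      rw [h2, ff_neg, ← this]
      ring
  exact
    { simplex := hS
      e1 := LF_zero ε _ _ hy _ _ hS.sa hS.sb
      e2 := LF_zero ε _ _ hy _ _ hS.sa hS.sb'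
      e3 := LF_zero ε _ _ hy _ _ hS.sa hS.sa'
      e4 := LF_zero ε _ _ hy _ _ hS.sb hS.sb' }

end

end Pool.Agent.Helper78.Makeev
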