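import Pool.Agent.Helper78.Makeev.Algebra

set_option autoImplicit false

open Finset ComplexConjugate

namespace Pool.Agent.Helper78.Makeev

/-- cubic functional -/
def Lm (a b' p q : Fin 5 → ℂ) : ℂ :=
  ∑ i, ∑ j, (a j - a i)^2 * (b' j - b' i) * (p i * q j)

/-- quintic functional -/
def LG (a a' b' p q : Fin 5 → ℂ) : ℂ :=
  ∑ i, ∑ j, (a j - a i)^3 * (a' j - a' i) * (b' j - b' i) * (p i * q j)

lemma Lm_eq (a b' p q : Fin 5 → ℂ) (hp : ∑ i, p i = 0) (hq : ∑ i, q i = 0) :
    Lm a b' p q = 2 * (t a b' p * s2 a q) + t a a p * s2 b' q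
      - s2 b' p * t a a q - 2 * (s2 a p * t a b' q) := by
  have key : Lm a b' p q = 2 * (t a b' p * s2 a q) + t a a p * s2 b' q
      + (∑ i, p i) * t a b' (fun i => a i * q i)
      - s2 b' p * t a a q - 2 * (s2 a p * t a b' q)
      - t a b' (fun i => a i * p i) * (∑ j, q j) := by
    simp only [Lm, t, s2, Finset.sum_mul_sum]
    simp only [Finset.mul_sum, ← Finset.sum_add_distrib, ← Finset.sum_sub_distrib]
    refine Finset.sum_congr rfl (fun i _ => Finset.sum_congr rfl (fun j _ => ?_))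
    ring
  rw [key, hp, hq]; ring

lemma LG_eq (a a' b' p q : Fin 5 → ℂ) (hp : ∑ i, p i = 0) (hq : ∑ i, q i = 0) :
    LG a a' b' p q =
      t a' b' p * q4 a a a q + 3 * (t a b' p * q4 a a a' q) + 3 * (t a a' p * q4 a a b' q)
      + 3 * (t a a p * q4 a a' b' q) + 3 * (q5 a a a' b' p * s2 a q)
      + q5 a a a b' p * s2 a' q + q5 a a a a' p * s2 b' q
      - s2 b' p * q5 a a a a' q - s2 a' p * q5 a a a b' q - 3 * (s2 a p * q5 a a a' b' q)
      - 3 * (q4 a a' b' p * t a a q) - 3 * (q4 a a b' p * t a a' q)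
      - 3 * (q4 a a a' p * t a b' q) - q4 a a a p * t a' b' q := by
  have key : LG a a' b' p q =
      t a' b' p * q4 a a a q + 3 * (t a b' p * q4 a a a' q) + 3 * (t a a' p * q4 a a b' q)
      + 3 * (t a a p * q4 a a' b' q) + 3 * (q5 a a a' b' p * s2 a q)
      + q5 a a a b' p * s2 a' q + q5 a a a a' p * s2 b' q
      + (∑ i, p i) * q5 a a a a' (fun i => b' i * q i)
      - s2 b' p * q5 a a a a' q - s2 a' p * q5 a a a b' q - 3 * (s2 a p * q5 a a a' b' q)
      - 3 * (q4 a a' b' p * t a a q) - 3 * (q4 a a b' p * t a a' q)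
      - 3 * (q4 a a a' p * t a b' q) - q4 a a a p * t a' b' q
      - q5 a a a a' (fun i => b' i * p i) * (∑ j, q j) := by
    simp only [LG, t, s2, q4, q5, Finset.sum_mul_sum]
    simp only [Finset.mul_sum, ← Finset.sum_add_distrib, ← Finset.sum_sub_distrib]
    refine Finset.sum_congr rfl (fun i _ => Finset.sum_congr rfl (fun j _ => ?_))
    ring
  rw [key, hp, hq]; ring

end Pool.Agent.Helper78.Makeev
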