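import Pool.Agent.Helper78.Makeev.Contra

set_option autoImplicit false
set_option linter.unusedSimpArgs false

open Finset ComplexConjugate Filter Topology

namespace Pool.Agent.Helper78.Makeev

/-- pointwise conjugate -/
def cj (a : Fin 5 → ℂ) : Fin 5 → ℂ := fun i => conj (a i)

/-- the functional attached to `f_ε` -/
noncomputable def LF (ε : ℝ) (a b p q : Fin 5 → ℂ) : ℂ :=
  (1/2) * (Lm a (cj b) p q + Lm (cj a) b p q)
    + ε / (2 * Complex.I) * (LG a (cj a) (cj b) p q - LG (cj a) a b p q)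

structure Good (ε : ℝ) (a b : Fin 5 → ℂ) : Prop where
  simplex : Simplex a (cj a) b (cj b)
  e1 : LF ε a b a b = 0
  e2 : LF ε a b a (cj b) = 0
  e3 : LF ε a b a (cj a) = 0
  e4 : LF ε a b b (cj b) = 0

section
variable {a a' b b' : Fin 5 → ℂ}

lemma Lm_ab (h : Simplex a a' b b') :
    Lm a b' a b + Lm a' b a b = t a a a - 2 * t a' b b := by
  rw [Lm_eq _ _ _ _ h.sa h.sb, Lm_eq _ _ _ _ h.sa h.sb]
  have c0 : s2 b' a = 0 := by rw [s2_comm]; exact h.ab'
  have c1 : s2 b a = 0 := by rw [s2_comm]; exact h.ab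
  have c2 : s2 a' a = 1 := by rw [s2_comm]; exact h.aa'
  have c3 : s2 b' b = 1 := by rw [s2_comm]; exact h.bb'
  rw [c0, c1, c2, c3, h.ab, h.aa, h.a'b, h.bb]
  ring

lemma Lm_ab' (h : Simplex a a' b b') :
    Lm a b' a b' + Lm a' b a b' = t a a' a' - 2 * t a' b b' := by
  rw [Lm_eq _ _ _ _ h.sa h.sb', Lm_eq _ _ _ _ h.sa h.sb']
  have c0 : s2 b' a = 0 := by rw [s2_comm]; exact h.ab'
  have c1 : s2 b a = 0 := by rw [s2_comm]; exact h.ab
  have c2 : s2 a' a = 1 := by rw [s2_comm]; exact h.aa'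
  rw [c0, c1, c2, h.ab', h.aa, h.a'b', h.b'b', h.bb']
  simp only [t12, t23]
  ring

lemma Lm_aa' (h : Simplex a a' b b') :
    Lm a b' a a' + Lm a' b a a' = 2 * t a a b' - 2 * t a' a' b := by
  rw [Lm_eq _ _ _ _ h.sa h.sa', Lm_eq _ _ _ _ h.sa h.sa']
  have c0 : s2 b' a = 0 := by rw [s2_comm]; exact h.ab'
  have c1 : s2 b a = 0 := by rw [s2_comm]; exact h.ab
  have c2 : s2 a' a = 1 := by rw [s2_comm]; exact h.aa'
  have c3 : s2 b' a' = 0 := by rw [s2_comm]; exact h.a'b'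
  have c4 : s2 b a' = 0 := by rw [s2_comm]; exact h.a'b
  rw [c0, c1, c2, c3, c4, h.aa', h.aa, h.a'a']
  simp only [t12, t23]
  ring

lemma Lm_bb' (h : Simplex a a' b b') :
    Lm a b' b b' + Lm a' b b b' = t a' a' b - t a a b' := by
  rw [Lm_eq _ _ _ _ h.sb h.sb', Lm_eq _ _ _ _ h.sb h.sb']
  have c0 : s2 b' b = 1 := by rw [s2_comm]; exact h.bb'
  rw [c0, h.ab, h.ab', h.a'b, h.a'b', h.bb, h.b'b', h.bb']
  simp only [t12, t23]
  ring

end

lemma Good.mu {ε : ℝ} (hε : ε ≠ 0) {a b : Fin 5 → ℂ} (h : Good ε a b) :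
    (LG a (cj a) (cj b) a (cj a) + 2 * LG a (cj a) (cj b) b (cj b))
      - (LG (cj a) a b a (cj a) + 2 * LG (cj a) a b b (cj b)) = 0 := by
  have h3 := h.e3
  have h4 := h.e4
  unfold LF at h3 h4
  have k1 := Lm_aa' h.simplex
  have k2 := Lm_bb' h.simplex
  have hε' : (ε / (2 * Complex.I) : ℂ) ≠ 0 := by
    apply div_ne_zero
    · exact_mod_cast hε
    · simp
  apply mul_left_cancel₀ hε'
  rw [mul_zero]
  linear_combination h3 + 2 * h4 - (1/2) * k1 - k2

lemma contra_of_limit (a b : Fin 5 → ℂ) (h : Simplex a (cj a) b (cj b))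
    (h1 : Lm a (cj b) a b + Lm (cj a) b a b = 0)
    (h2 : Lm a (cj b) a (cj b) + Lm (cj a) b a (cj b) = 0)
    (h3 : Lm a (cj b) a (cj a) + Lm (cj a) b a (cj a) = 0)
    (hmu : (LG a (cj a) (cj b) a (cj a) + 2 * LG a (cj a) (cj b) b (cj b))
      - (LG (cj a) a b a (cj a) + 2 * LG (cj a) a b b (cj b)) = 0) : False := by
  rw [Lm_ab h] at h1
  rw [Lm_ab' h] at h2
  rw [Lm_aa' h] at h3
  have hT : t a a a = 2 * t (cj a) b b := by linear_combination h1
  have hN : t a (cj a) (cj a) = 2 * t (cj a) b (cj b) := by linear_combination h2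
  have hR : t a a (cj b) = t (cj a) (cj a) b := by linear_combination (1/2) * h3
  have hcc : ∀ x : Fin 5 → ℂ, cj (cj x) = x := by
    intro x; funext i; simp [cj]
  have htc : ∀ x y z : Fin 5 → ℂ, t (cj x) (cj y) (cj z) = conj (t x y z) := t_conj
  have hT' : t (cj a) (cj a) (cj a) = 2 * t a (cj b) (cj b) := by
    have := congrArg conj hT
    rw [map_mul, ← htc, ← htc, hcc] at this
    have h2' : (starRingEnd ℂ) 2 = 2 := Complex.conj_ofNat 2
    rw [h2'] at this
    exact this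
  have hN' : t a a (cj a) = 2 * t a b (cj b) := by
    have := congrArg conj hN
    rw [map_mul, ← htc, ← htc, hcc, hcc] at this
    have e1 : t (cj a) a a = t a a (cj a) := by rw [t12, t23]
    have e2 : t a (cj b) b = t a b (cj b) := t23 _ _ _
    have h2' : (starRingEnd ℂ) 2 = 2 := Complex.conj_ofNat 2
    rw [e1, e2, h2'] at this
    exact this
  exact no_crit a b { toSimplex := h, hT := hT, hT' := hT', hN := hN, hN' := hN', hR := hR } hmu

end Pool.Agent.Helper78.Makeev
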