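import Pool.Agent.Helper78.Makeev.Core

set_option autoImplicit false
set_option linter.unusedSimpArgs false

open Finset ComplexConjugate

namespace Pool.Agent.Helper78.Makeev

variable {a a' b b' : Fin 5 → ℂ}

lemma Crit.symm (h : Crit a a' b b') : Crit a' a b' b where
  sa := h.sa'
  sa' := h.sa
  sb := h.sb'
  sb' := h.sb
  aa := h.a'a'
  a'a' := h.aa
  bb := h.b'b'
  b'b' := h.bb
  ab := h.a'b'
  ab' := h.a'b
  a'b := h.ab'
  a'b' := h.ab
  aa' := by rw [s2_comm]; exact h.aa'
  bb' := by rw [s2_comm]; exact h.bb'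
  tight := fun i j => by rw [h.tight i j]; ring
  hT := h.hT'
  hT' := h.hT
  hN := by
    have := h.hN'
    simp only [t12, t23] at this ⊢
    exact this
  hN' := by
    have := h.hN
    simp only [t12, t23] at this ⊢
    exact this
  hR := h.hR.symm

lemma Q_aaaa (h : Crit a a' b b') : q4 a a a a = 2 * (t a a b * t a' a' b) := by
  have l := P4 h.toSimplex a a a a
  simp only [t12, t23, h.aa, h.hN', N_zero h, h.hR] at l
  linear_combination l

lemma Q_aaaa' (h : Crit a a' b b') :
    q4 a a a a' = t a a b * t a a' b' + t a' a' b * t a a' b := by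
  have l := P4 h.toSimplex a a a a'
  simp only [t12, t23, h.aa, h.hN, h.hN', N_zero h, N'_zero h, h.hR] at l
  linear_combination l

lemma Q_aaab (h : Crit a a' b b') :
    q4 a a a b = 2 * (t a' b b * t a a' b) + t a' a' b * t a b b := by
  have l := P4 h.toSimplex a a a b
  simp only [t12, t23, h.aa, h.hN, h.hN', h.hT, N_zero h, N'_zero h, h.hR] at l
  linear_combination l

lemma Q_aaa'a' (h : Crit a a' b b') :
    q4 a a a' a' = 1/5 + 2 * (t a a' b * t a a' b') := by
  have l := P4 h.toSimplex a a' a a'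
  simp only [t12, t23, q12, q23, q34, h.aa', h.hN, h.hN', h.hT, N_zero h, N'_zero h, h.hR] at l
  linear_combination l

lemma Q_aaa'b (h : Crit a a' b b') :
    q4 a a a' b = 3 * (t a' a' b * t a' b b) := by
  have l := P4 h.toSimplex a a a' b
  simp only [t12, t23, q12, q23, q34, h.aa, h.hN, h.hN', h.hT, N_zero h, N'_zero h, h.hR] at l
  linear_combination l

lemma Q_aa'a'b' (h : Crit a a' b b') :
    q4 a a' a' b' = 3 * (t a' a' b * t a b' b') := by
  have l := P4 h.toSimplex a' a' a b'
  simp only [t12, t23, q12, q23, q34, h.a'a', h.hN, h.hN', h.hT', N_zero h, N'_zero h, h.hR] at l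
  linear_combination l

lemma Q_aabb' (h : Crit a a' b b') :
    q4 a a b b' = - (t a a b * t a a' b') - t a' a' b * t a a' b := by
  have l := P4 h.toSimplex a a b b'
  simp only [t12, t23, q12, q23, q34, h.aa, h.hN, h.hN', h.hT', N_zero h, N'_zero h, h.hR,
    beta h, beta' h] at l
  linear_combination l

lemma Q_aab'b' (h : Crit a a' b b') :
    q4 a a b' b' = 2 * (t a' a' b * t a a' b') := by
  have l := P4 h.toSimplex a b' a b'
  simp only [t12, t23, q12, q23, q34, h.ab', h.hN, h.hN', h.hT', N_zero h, N'_zero h, h.hR,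
    beta h, beta' h] at l
  linear_combination l

lemma Q_aa'bb' (h : Crit a a' b b') :
    q4 a a' b b' = 1/5 - 2 * (t a a' b * t a a' b') := by
  have l := P4 h.toSimplex a a' b b'
  simp only [t12, t23, q12, q23, q34, h.aa', h.bb', h.hN, h.hN', h.hT', N_zero h, N'_zero h, h.hR,
    beta h, beta' h] at l
  linear_combination l

lemma Q_aa'b'b' (h : Crit a a' b b') :
    q4 a a' b' b' = t a' a' b' * t a' a' b + t a a' b' * t a a' b' := by
  have l := P4 h.toSimplex a b' a' b'
  simp only [t12, t23, q12, q23, q34, h.ab', h.a'b', h.hN, h.hN', h.hT', N_zero h, N'_zero h,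
    h.hR, beta h, beta' h] at l
  linear_combination l

/-- The key quintic functional evaluated at a critical simplex. -/
lemma X_eq (h : Crit a a' b b') :
    LG a a' b' a a' + 2 * LG a a' b' b b'
      = t a' a' b * (60 * (t a a' b * t a a' b') - 45 * (t a b' b' * t a' b b) - 1) := by
  have h1 := LG_eq a a' b' a a' h.sa h.sa'
  have h2 := LG_eq a a' b' b b' h.sb h.sb'
  have c0 : s2 b' a = 0 := by rw [s2_comm]; exact h.ab'
  have c1 : s2 b' a' = 0 := by rw [s2_comm]; exact h.a'b'
  have c2 : s2 a' a = 1 := by rw [s2_comm]; exact h.aa'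
  have c3 : s2 b' b = 1 := by rw [s2_comm]; exact h.bb'
  simp only [c0, c1, c2, c3, h.aa, h.a'a', h.bb, h.b'b', h.ab, h.ab', h.a'b, h.a'b', h.aa', h.bb',
    t12, t23, q12, q23, q34, q5_12, q5_23, q5_34, q5_45] at h1 h2
  simp only [h.hT, h.hT', h.hN, h.hN', N_zero h, N'_zero h, h.hR,
    Q_aaaa h, Q_aaaa' h, Q_aaab h, Q_aaa'a' h, Q_aaa'b h, Q_aa'a'b' h, Q_aabb' h, Q_aab'b' h,
    Q_aa'bb' h, Q_aa'b'b' h] at h1 h2
  have e1 := E1 h
  have e3 := E3 h
  have e4 := E4 h
  have e5 := E5 h
  have e6 := E6 h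
  have e6' := E6' h
  rw [h1, h2]
  linear_combination (6 * t a' a' b) * e1 - (8 * t a' a' b) * e4 - (2 * t a' a' b) * e3
    + (5 * t a a' b') * e5 + (5 * t a b' b') * e6 + (4 * t a' b b) * e6'

end Pool.Agent.Helper78.Makeev
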